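import Mathlib

set_option autoImplicit false

open Set
open scoped NNReal

namespace Pool.Agent.Results.MP_adfebc_an.StretchSetRectifiable

/-- Euclidean space of dimension `n`. -/
abbrev E (n : ℕ) : Type := EuclideanSpace ℝ (Fin n)

/-- The space `ℝ^n × ℝ^n = ℝ^(2n)` of pairs, with the Euclidean norm. -/
abbrev Pairs (n : ℕ) : Type := WithLp 2 (E n × E n)

/-- The optimal Lipschitz constant of `f`: the infimum of all `L ≥ 0` with
`|f x - f y| ≤ L |x - y|` for all `x, y`. -/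
noncomputable def lip {n m : ℕ} (f : E n → E m) : ℝ :=
  sInf {L : ℝ | 0 ≤ L ∧ ∀ x y : E n, ‖f x - f y‖ ≤ L * ‖x - y‖}

/-- The stretch set of `f`: the pairs at which `f` attains its optimal Lipschitz constant. -/
def stretchSet {n m : ℕ} (f : E n → E m) : Set (Pairs n) :=
  {P | ‖f P.fst - f P.snd‖ = lip f * ‖P.fst - P.snd‖}

/-- `S` is `k`-rectifiable (strong convention): it is covered by countably many Lipschitz images
of `ℝ^k`, without exceptional set. -/
def IsRectifiable {n : ℕ} (k : ℕ) (S : Set (Pairs n)) : Prop :=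
  ∃ ψ : ℕ → E k → Pairs n, (∀ i, ∃ K : ℝ≥0, LipschitzWith K (ψ i)) ∧ S ⊆ ⋃ i, range (ψ i)

section

variable {n m : ℕ} {f : E n → E m}

theorem lip_set_nonempty (hf : ∃ K : ℝ≥0, LipschitzWith K f) :
    {L : ℝ | 0 ≤ L ∧ ∀ x y : E n, ‖f x - f y‖ ≤ L * ‖x - y‖}.Nonempty := by
  obtain ⟨K, hK⟩ := hf
  refine ⟨K, K.2, fun x y => ?_⟩
  have := hK.dist_le_mul x y
  rwa [dist_eq_norm, dist_eq_norm] at this

theorem lip_nonneg : 0 ≤ lip f := Real.sInf_nonneg (fun _ hx => hx.1)

theorem norm_le_lip (hf : ∃ K : ℝ≥0, LipschitzWith K f) (x y : E n) :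
    ‖f x - f y‖ ≤ lip f * ‖x - y‖ := by
  rcases eq_or_lt_of_le (norm_nonneg (x - y)) with h | h
  · have hxy : x = y := by
      rw [← sub_eq_zero]
      exact norm_eq_zero.1 h.symm
    subst hxy
    simp
  · rw [← div_le_iff₀ h]
    refine le_csInf (lip_set_nonempty hf) fun L hL => ?_
    rw [div_le_iff₀ h]
    exact hL.2 x y

theorem lip_pos (hf : ∃ K : ℝ≥0, LipschitzWith K f) (hnc : ∃ x y, f x ≠ f y) : 0 < lip f := by
  obtain ⟨x, y, hxy⟩ := hnc
  have h1 := norm_le_lip hf x y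
  have h2 : 0 < ‖f x - f y‖ := norm_pos_iff.2 (sub_ne_zero.2 hxy)
  have h3 : 0 < lip f * ‖x - y‖ := lt_of_lt_of_le h2 h1
  by_contra hneg
  push Not at hneg
  nlinarith [norm_nonneg (x - y)]

/-- midpoint of a pair and normalised half difference of the values -/
noncomputable def chart (f : E n → E m) (P : Pairs n) : E n × E m :=
  ((1 / 2 : ℝ) • (P.fst + P.snd), (1 / (2 * lip f)) • (f P.fst - f P.snd))

theorem key {x y x' y' : E n} (hf : ∃ K : ℝ≥0, LipschitzWith K f) (hL : 0 < lip f)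
    (h : ‖f x - f y‖ = lip f * ‖x - y‖) (h' : ‖f x' - f y'‖ = lip f * ‖x' - y'‖) :
    ‖(1 / 2 : ℝ) • (x - y) - (1 / 2 : ℝ) • (x' - y')‖ ^ 2 ≤
      ‖(1 / 2 : ℝ) • (x + y) - (1 / 2 : ℝ) • (x' + y')‖ ^ 2 +
      ‖(1 / (2 * lip f)) • (f x - f y) - (1 / (2 * lip f)) • (f x' - f y')‖ ^ 2 := by
  set L := lip f with hLdef
  set u := (1 / 2 : ℝ) • (x - y) with hu
  set u' := (1 / 2 : ℝ) • (x' - y') with hu'
  set a := (1 / 2 : ℝ) • (x + y) - (1 / 2 : ℝ) • (x' + y') with ha
  set v := (1 / (2 * L)) • (f x - f y) with hv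
  set v' := (1 / (2 * L)) • (f x' - f y') with hv'
  set c := (1 / (2 * L)) • (f x + f y) - (1 / (2 * L)) • (f x' + f y') with hc
  have hnu : ‖v‖ = ‖u‖ := by
    rw [hv, hu, norm_smul, norm_smul, h, Real.norm_of_nonneg (by positivity),
      Real.norm_of_nonneg (by positivity)]
    field_simp
  have hnu' : ‖v'‖ = ‖u'‖ := by
    rw [hv', hu', norm_smul, norm_smul, h', Real.norm_of_nonneg (by positivity),
      Real.norm_of_nonneg (by positivity)]
    field_simp
  have e1 : c + (v + v') = (1 / L) • (f x - f y') := by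
    rw [hc, hv, hv']
    module
  have e2 : c - (v + v') = (1 / L) • (f y - f x') := by
    rw [hc, hv, hv']
    module
  have e3 : a + (u + u') = x - y' := by
    rw [ha, hu, hu']
    module
  have e4 : a - (u + u') = y - x' := by
    rw [ha, hu, hu']
    module
  have hle : ∀ s t : E n, ‖(1 / L) • (f s - f t)‖ ≤ ‖s - t‖ := by
    intro s t
    rw [norm_smul, Real.norm_of_nonneg (by positivity), one_div, inv_mul_le_iff₀ hL]
    exact norm_le_lip hf s t
  have h1 : ‖c + (v + v')‖ ≤ ‖a + (u + u')‖ := by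
    rw [e1, e3]
    exact hle _ _
  have h2 : ‖c - (v + v')‖ ≤ ‖a - (u + u')‖ := by
    rw [e2, e4]
    exact hle _ _
  have p1 := parallelogram_law_with_norm ℝ c (v + v')
  have p2 := parallelogram_law_with_norm ℝ a (u + u')
  have p3 := parallelogram_law_with_norm ℝ v v'
  have p4 := parallelogram_law_with_norm ℝ u u'
  have h3 := mul_self_le_mul_self (norm_nonneg _) h1
  have h4 := mul_self_le_mul_self (norm_nonneg _) h2
  rw [hnu, hnu'] at p3
  nlinarith [mul_self_nonneg ‖c‖]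

theorem dist_le_chart (hf : ∃ K : ℝ≥0, LipschitzWith K f) (hL : 0 < lip f) {P Q : Pairs n}
    (hP : P ∈ stretchSet f) (hQ : Q ∈ stretchSet f) :
    dist P Q ≤ 3 * dist (chart f P) (chart f Q) := by
  have hk := key hf hL hP hQ
  set D := dist (chart f P) (chart f Q) with hD
  set a := (1 / 2 : ℝ) • (P.fst + P.snd) - (1 / 2 : ℝ) • (Q.fst + Q.snd) with ha
  set d := (1 / 2 : ℝ) • (P.fst - P.snd) - (1 / 2 : ℝ) • (Q.fst - Q.snd) with hd
  have hD1 : ‖a‖ ≤ D := by
    rw [hD, Prod.dist_eq, ha, ← dist_eq_norm]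
    exact le_max_left _ _
  have hD2 : ‖(1 / (2 * lip f)) • (f P.fst - f P.snd) - (1 / (2 * lip f)) • (f Q.fst - f Q.snd)‖
      ≤ D := by
    rw [hD, Prod.dist_eq, ← dist_eq_norm]
    exact le_max_right _ _
  have hD0 : 0 ≤ D := dist_nonneg
  have e1 : P.fst - Q.fst = a + d := by
    rw [ha, hd]
    module
  have e2 : P.snd - Q.snd = a - d := by
    rw [ha, hd]
    module
  have p := parallelogram_law_with_norm ℝ a d
  rw [← e1, ← e2] at p
  rw [WithLp.prod_dist_eq_of_L2, dist_eq_norm, dist_eq_norm]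
  apply Real.sqrt_le_iff.2 ⟨by positivity, ?_⟩
  have h1 : ‖a‖ ^ 2 ≤ D ^ 2 := pow_le_pow_left₀ (norm_nonneg _) hD1 2
  have h2 := pow_le_pow_left₀ (norm_nonneg _) hD2 2
  nlinarith

/-- `ℝ^(n+m)` is linearly homeomorphic to `ℝ^n × ℝ^m`. -/
noncomputable def iso (n m : ℕ) : E (n + m) ≃L[ℝ] E n × E m :=
  ContinuousLinearEquiv.ofFinrankEq (by simp)

theorem exists_ext (hf : ∃ K : ℝ≥0, LipschitzWith K f) (hL : 0 < lip f) :
    ∃ (K : ℝ≥0) (ψ : E (n + m) → Pairs n), LipschitzWith K ψ ∧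
      ∀ P ∈ stretchSet f, ψ ((iso n m).symm (chart f P)) = P := by
  classical
  set g : E n × E m → Pairs n := fun z => Function.invFunOn (chart f) (stretchSet f) z with hg
  have hginv : ∀ z ∈ chart f '' stretchSet f, g z ∈ stretchSet f ∧ chart f (g z) = z := by
    rintro z hz
    exact ⟨Function.invFunOn_mem hz, Function.invFunOn_eq hz⟩
  have hlip : LipschitzOnWith 3 g (chart f '' stretchSet f) := by
    apply LipschitzOnWith.of_dist_le_mul
    intro z hz z' hz'
    have h := dist_le_chart hf hL (hginv z hz).1 (hginv z' hz').1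
    rw [(hginv z hz).2, (hginv z' hz').2] at h
    exact_mod_cast h
  obtain ⟨G, hG1, hG2⟩ := hlip.extend_finite_dimension
  refine ⟨_, G ∘ (iso n m), hG1.comp (iso n m).lipschitz, fun P hP => ?_⟩
  have hmem : chart f P ∈ chart f '' stretchSet f := mem_image_of_mem _ hP
  have h1 : G (chart f P) = g (chart f P) := (hG2 hmem).symm
  have h2 := hginv _ hmem
  have h3 : dist (g (chart f P)) P ≤ 0 := by
    refine (dist_le_chart hf hL h2.1 hP).trans ?_
    rw [h2.2, dist_self]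
    simp
  have h4 : g (chart f P) = P := dist_le_zero.1 h3
  simp only [Function.comp_apply, ContinuousLinearEquiv.apply_symm_apply]
  rw [h1, h4]

theorem chart_lipschitz (hf : ∃ K : ℝ≥0, LipschitzWith K f) :
    ∃ K : ℝ≥0, LipschitzWith K (chart f) := by
  obtain ⟨K, hK⟩ := hf
  have h1 : LipschitzWith 1 (fun P : Pairs n => P.fst) := by
    apply LipschitzWith.of_dist_le_mul
    intro P Q
    rw [WithLp.prod_dist_eq_of_L2]
    simp only [NNReal.coe_one, one_mul]
    apply Real.le_sqrt_of_sq_le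
    nlinarith [sq_nonneg (dist P.snd Q.snd)]
  have h2 : LipschitzWith 1 (fun P : Pairs n => P.snd) := by
    apply LipschitzWith.of_dist_le_mul
    intro P Q
    rw [WithLp.prod_dist_eq_of_L2]
    simp only [NNReal.coe_one, one_mul]
    apply Real.le_sqrt_of_sq_le
    nlinarith [sq_nonneg (dist P.fst Q.fst)]
  have hs : ∀ (c : ℝ) (k : ℕ), LipschitzWith ‖c‖₊ (fun x : E k => c • x) := fun c k =>
    lipschitzWith_smul c
  exact ⟨_, ((hs (1 / 2) n).comp (h1.add h2)).prodMk
    ((hs (1 / (2 * lip f)) m).comp ((hK.comp h1).sub (hK.comp h2)))⟩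

end

/-- **The stretch set of a vector-valued Lipschitz map is rectifiable.** For all `n`, `m` (in
particular for `n > m ≥ 1`) and every non-constant Lipschitz `f : ℝ^n → ℝ^m` the stretch set of `f`
is `(n+m)`-rectifiable without exceptional set. More precisely, one Lipschitz map
`ψ : ℝ^(n+m) → ℝ^(2n)` is enough: it has a Lipschitz left inverse `φ` on the stretch set, so
that `φ` is a bi-Lipschitz bijection from the stretch set onto a subset of `ℝ^(n+m)`. -/
theorem result (n m : ℕ) (f : E n → E m) (hf : ∃ K : ℝ≥0, LipschitzWith K f)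
    (hnc : ∃ x y, f x ≠ f y) :
    IsRectifiable (n + m) (stretchSet f) ∧
    ∃ (ψ : E (n + m) → Pairs n) (φ : Pairs n → E (n + m)) (K K' : ℝ≥0),
      LipschitzWith K ψ ∧ LipschitzWith K' φ ∧ ∀ P ∈ stretchSet f, ψ (φ P) = P := by
  obtain ⟨K, ψ, hψ, hinv⟩ := exists_ext hf (lip_pos hf hnc)
  obtain ⟨K', hK'⟩ := chart_lipschitz hf
  refine ⟨⟨fun _ => ψ, fun _ => ⟨K, hψ⟩, fun P hP => ?_⟩,
    ψ, fun P => (iso n m).symm (chart f P), K, _, hψ,
      (iso n m).symm.lipschitz.comp hK', hinv⟩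
  exact mem_iUnion.2 ⟨0, _, hinv P hP⟩

end Pool.Agent.Results.MP_adfebc_an.StretchSetRectifiable
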